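import Pool.Agent.Helper472.CK.Grp3

namespace Pool.Agent.Results.MP_b21485_co.Main

open CK

/-- The cokernel of the Carlitz matrix `C_{a,b,c}` is `⨁_{j=1}^{b} ℤ/d_j`, where
`d_j = invFactor a b c j` and `d_{j+1} ∣ d_j`; so the `d_j` are its invariant factors. -/
theorem result (a b c : ℕ) :
    (∀ j : ℕ, invFactor a b c (j + 2) ∣ invFactor a b c (j + 1)) ∧
      Nonempty (((Fin b → ℤ) ⧸ LinearMap.range (carlitz a b c).mulVecLin) ≃+
        ∀ j : Fin b, ZMod (invFactor a b c (j + 1))) :=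
  ⟨fun j => invFactor_dvd a b c (by omega), main_iso a b c⟩

end Pool.Agent.Results.MP_b21485_co.Main
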